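import Pool.Agent.H84.TI.Stm

set_option autoImplicit false

open Finset Filter

namespace Pool.Agent.H13.TI

open Pool.Agent.H84.TI

theorem sidon_of_ind {n : ℕ} {A : Finset (ZMod n)} (hA : TIndependent n 4 A)
    {a b c d : ZMod n} (ha : a ∈ A) (hb : b ∈ A) (hc : c ∈ A) (hd : d ∈ A)
    (h : a + b = c + d) : (a = c ∧ b = d) ∨ (a = d ∧ b = c) := by
  classical
  by_contra hne
  let f : ZMod n → ℤ := fun x => (if x = a then 1 else 0) + (if x = b then 1 else 0)
    - (if x = c then 1 else 0) - (if x = d then 1 else 0)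
  have hsum : ∑ x ∈ A, f x • x = 0 := by
    simp only [f, add_smul, sub_smul, Finset.sum_add_distrib, Finset.sum_sub_distrib, ite_smul,
      one_smul, zero_smul, Finset.sum_ite_eq', ha, hb, hc, hd, if_true]
    rw [h]; ring
  have hle : ∑ x ∈ A, |f x| ≤ 4 := by
    have h1 : ∀ x ∈ A, |f x| ≤ (if x = a then 1 else 0) + (if x = b then 1 else 0)
        + (if x = c then 1 else 0) + (if x = d then (1 : ℤ) else 0) := by
      intro x _
      simp only [f]
      rw [abs_le]
      constructor <;> split_ifs <;> norm_num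
    refine (Finset.sum_le_sum h1).trans ?_
    simp only [Finset.sum_add_distrib, Finset.sum_ite_eq', ha, hb, hc, hd, if_true]
    norm_num
  have hge : 1 ≤ ∑ x ∈ A, |f x| := by
    by_contra hlt
    have h0 : ∑ x ∈ A, |f x| = 0 :=
      le_antisymm (by omega) (Finset.sum_nonneg fun x _ => abs_nonneg _)
    have hz := (Finset.sum_eq_zero_iff_of_nonneg (fun x _ => abs_nonneg (f x))).1 h0
    have za : f a = 0 := abs_eq_zero.1 (hz a ha)
    have zb : f b = 0 := abs_eq_zero.1 (hz b hb)
    simp only [f, if_true] at za zb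
    apply hne
    by_cases hac : a = c
    · left
      refine ⟨hac, ?_⟩
      subst hac
      exact add_left_cancel h
    · right
      by_cases had : a = d
      · refine ⟨had, ?_⟩
        subst had
        rw [add_comm c a] at h
        exact add_left_cancel h
      · exfalso
        simp only [hac, had, if_false] at za
        split_ifs at za <;> omega
  exact hA f hge hle hsum

theorem card_sq_le {n : ℕ} (hn : 0 < n) {A : Finset (ZMod n)} (hA : TIndependent n 4 A) :
    A.card ^ 2 ≤ 2 * n := by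
  classical
  haveI : NeZero n := ⟨hn.ne'⟩
  have h := Finset.card_le_mul_card_image_of_maps_to (s := A ×ˢ A)
    (t := (Finset.univ : Finset (ZMod n))) (f := fun q : ZMod n × ZMod n => q.1 + q.2)
    (fun _ _ => Finset.mem_univ _) 2 (by
      intro x _
      rcases Finset.eq_empty_or_nonempty ((A ×ˢ A).filter (fun q : ZMod n × ZMod n => q.1 + q.2 = x))
        with he | ⟨⟨a, b⟩, hab⟩
      · rw [he]; simp
      · simp only [Finset.mem_filter, Finset.mem_product] at hab
        have hs : (A ×ˢ A).filter (fun q : ZMod n × ZMod n => q.1 + q.2 = x) ⊆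
            {(a, b), (b, a)} := by
          rintro ⟨c, d⟩ hcd
          simp only [Finset.mem_filter, Finset.mem_product] at hcd
          rcases sidon_of_ind hA hcd.1.1 hcd.1.2 hab.1.1 hab.1.2 (hcd.2.trans hab.2.symm) with
            ⟨h1, h2⟩ | ⟨h1, h2⟩
          · simp [h1, h2]
          · simp [h1, h2]
        exact (Finset.card_le_card hs).trans Finset.card_le_two)
  rw [Finset.card_product, Finset.card_univ, ZMod.card] at h
  rw [sq]; exact h

theorem tau_sq_le {n : ℕ} (hn : 0 < n) : tau n 4 ^ 2 ≤ 2 * n := by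
  have h : tau n 4 ≤ Nat.sqrt (2 * n) := by
    refine csSup_le' ?_
    rintro k ⟨A, rfl, hA⟩
    exact Nat.le_sqrt'.2 (card_sq_le hn hA)
  exact Nat.le_sqrt'.1 h

theorem ratio_le {n : ℕ} (hn : 0 < n) : (tau n 4 : ℝ) / √(n : ℝ) ≤ 2 := by
  have hs : 0 < √(n : ℝ) := Real.sqrt_pos.2 (by exact_mod_cast hn)
  rw [div_le_iff₀ hs]
  have h := tau_sq_le hn
  have h' : (tau n 4 : ℝ) ^ 2 ≤ 2 * n := by exact_mod_cast h
  refine abs_le_of_sq_le_sq' ?_ (by positivity) |>.2
  rw [mul_pow, Real.sq_sqrt (Nat.cast_nonneg n)]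
  have : (0 : ℝ) ≤ n := Nat.cast_nonneg n
  linarith

theorem t_FIN (hLOW : S_LOW) : S_FIN := by
  refine ⟨?_, ?_⟩
  · refine le_of_forall_sub_le fun ε hε => ?_
    refine le_liminf_of_le ?_ (hLOW hε)
    refine IsBoundedUnder.isCoboundedUnder_ge ⟨2, ?_⟩
    rw [eventually_map]
    filter_upwards [eventually_gt_atTop 0] with n hn
    exact ratio_le hn
  · have h6 : 0 < √(6 : ℝ) := Real.sqrt_pos.2 (by norm_num)
    have h8 : 0 < √(8 : ℝ) := Real.sqrt_pos.2 (by norm_num)
    have e6 : √(6 : ℝ) ^ 2 = 6 := Real.sq_sqrt (by norm_num)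
    have e8 : √(8 : ℝ) ^ 2 = 8 := Real.sq_sqrt (by norm_num)
    rw [div_lt_div_iff₀ h8 (by positivity)]
    by_contra hcon
    push Not at hcon
    nlinarith [mul_nonneg (sub_nonneg.2 hcon) (by positivity : 0 ≤ 16 * √(6 : ℝ) + 15 * √(8 : ℝ))]

end Pool.Agent.H13.TI
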