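import Pool.Agent.H84.TI.Stm

set_option autoImplicit false

open Finset Filter

namespace Pool.Agent.H13.TI

open Pool.Agent.H84.TI

theorem t_TWO : S_TWO := by
  intro M _ B x0 t
  have hP := Finset.card_eq_sum_card_fiberwise
    (s := (At B x0 t ×ˢ At B x0 t).filter (fun q : ℕ × ℕ => q.1 + q.2 ∈ At B x0 t))
    (t := At B x0 t) (f := fun q : ℕ × ℕ => q.1 + q.2) (fun q hq => (Finset.mem_filter.1 hq).2)
  have hD := Finset.card_eq_sum_card_fiberwise
    (s := (At B x0 t).filter (fun a : ℕ => a + a ∈ At B x0 t))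
    (t := At B x0 t) (f := fun a : ℕ => a + a) (fun q hq => (Finset.mem_filter.1 hq).2)
  rw [hP, hD, ← Finset.sum_add_distrib]
  refine le_trans ?_ (Finset.sum_le_sum_of_subset (s := Bad B x0 t) (Finset.filter_subset _ _))
  rw [mul_comm, ← smul_eq_mul]
  refine Finset.card_nsmul_le_sum _ _ _ (fun c hc => ?_)
  obtain ⟨hcA, a, ha, b, hb, hab⟩ := Finset.mem_filter.1 hc
  by_cases h : a = b
  · subst h
    have h1 : 0 < (((At B x0 t ×ˢ At B x0 t).filter
        (fun q : ℕ × ℕ => q.1 + q.2 ∈ At B x0 t)).filter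
          (fun q : ℕ × ℕ => q.1 + q.2 = c)).card :=
      Finset.card_pos.2 ⟨(a, a), by simp [ha, hab, hcA]⟩
    have h2 : 0 < (((At B x0 t).filter (fun a : ℕ => a + a ∈ At B x0 t)).filter
          (fun a : ℕ => a + a = c)).card :=
      Finset.card_pos.2 ⟨a, by simp [ha, hab, hcA]⟩
    omega
  · have h1 : ({(a, b), (b, a)} : Finset (ℕ × ℕ)) ⊆ (((At B x0 t ×ˢ At B x0 t).filter
        (fun q : ℕ × ℕ => q.1 + q.2 ∈ At B x0 t)).filter
          (fun q : ℕ × ℕ => q.1 + q.2 = c)) := by
      intro q hq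
      rcases Finset.mem_insert.1 hq with rfl | hq
      · simp [ha, hb, hab, hcA]
      · rw [Finset.mem_singleton.1 hq]
        have : b + a = c := by omega
        simp [ha, hb, this, hcA]
    have h2 := Finset.card_le_card h1
    rw [Finset.card_pair (by simp [h])] at h2
    omega

end Pool.Agent.H13.TI
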